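import Pool.Agent.H.MP_c3d4b2_gt.Main

namespace Pool.Agent.Results.MP_c3d4b2_gt.No

open Matrix MeasureTheory

abbrev V (n : ℕ) := Fin n → ℝ

abbrev Met (n : ℕ) := V n → Matrix (Fin n) (Fin n) ℝ

def ip {n : ℕ} (A : Matrix (Fin n) (Fin n) ℝ) (u v : V n) : ℝ := u ⬝ᵥ A *ᵥ v

def bv {n : ℕ} (i : Fin n) : V n := Pi.single i 1

noncomputable def chr {n : ℕ} (h : Met n) (x u v : V n) : V n :=
  (h x)⁻¹ *ᵥ fun l => (1 / 2 : ℝ) *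
    (lineDeriv ℝ (fun z => ip (h z) v (bv l)) x u + lineDeriv ℝ (fun z => ip (h z) u (bv l)) x v
      - lineDeriv ℝ (fun z => ip (h z) u v) x (bv l))

noncomputable def curv {n : ℕ} (h : Met n) (x X Y Z : V n) : V n :=
  lineDeriv ℝ (fun z => chr h z Y Z) x X - lineDeriv ℝ (fun z => chr h z X Z) x Y
    + chr h x X (chr h x Y Z) - chr h x Y (chr h x X Z)

def Complete {n : ℕ} (g : Met n) : Prop :=
  ∀ x : ℕ → V n,
    (∀ ε : ℝ, 0 < ε → ∃ N : ℕ, ∀ k l : ℕ, N ≤ k → N ≤ l →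
      ∃ c : ℝ → V n, ContDiff ℝ 1 c ∧ c 0 = x k ∧ c 1 = x l ∧
        ∫ r in (0 : ℝ)..1, √(ip (g (c r)) (deriv c r) (deriv c r)) < ε) →
    ∃ p : V n, Filter.Tendsto x Filter.atTop (nhds p)

def IsMetric {n : ℕ} (g : Met n) : Prop :=
  (∀ i j, ContDiff ℝ (⊤ : ℕ∞) (fun x => g x i j)) ∧ ∀ x, (g x).PosDef

noncomputable def Rm {n : ℕ} (g : Met n) (x : V n) (i j k l : Fin n) : ℝ :=
  ip (g x) (curv g x (bv i) (bv j) (bv l)) (bv k)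

noncomputable def Ric {n : ℕ} (g : Met n) (x : V n) (j l : Fin n) : ℝ :=
  ∑ i, ∑ k, (g x)⁻¹ i k * Rm g x i j k l

noncomputable def Scal {n : ℕ} (g : Met n) (x : V n) : ℝ :=
  ∑ j, ∑ l, (g x)⁻¹ j l * Ric g x j l

noncomputable def Plow {n : ℕ} (g : Met n) (x : V n) (i j k l : Fin n) : ℝ :=
  Rm g x i j k l + Ric g x j k * g x i l - Ric g x j l * g x i k - Ric g x i k * g x j l
    + Ric g x i l * g x j k + 1 / 2 * Scal g x * (g x i k * g x j l - g x i l * g x j k)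

noncomputable def Pup {n : ℕ} (g : Met n) (x : V n) (i j k l : Fin n) : ℝ :=
  ∑ a, ∑ b, ∑ c, ∑ d, (g x)⁻¹ i a * (g x)⁻¹ j b * (g x)⁻¹ k c * (g x)⁻¹ l d * Plow g x a b c d

noncomputable def L2 {n : ℕ} (g : Met n) (x : V n) : ℝ :=
  ∑ i, ∑ j, ∑ k, ∑ l, Pup g x i j k l * Rm g x i j k l

noncomputable def sphMeas (n : ℕ) : Measure (Metric.sphere (0 : EuclideanSpace ℝ (Fin n)) 1) :=
  (volume : Measure (EuclideanSpace ℝ (Fin n))).toSphere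

noncomputable def flux {n : ℕ} (g : Met n) (r : ℝ) : ℝ :=
  r ^ (n - 1) * ∫ θ, ∑ i, ∑ j, ∑ k, ∑ l, Pup g (r • θ.1.ofLp) i j k l *
    (lineDeriv ℝ (fun z => g z j k) (r • θ.1.ofLp) (bv l) * θ.1.ofLp i) ∂(sphMeas n)

def HasMass {n : ℕ} (g : Met n) (m : ℝ) : Prop :=
  Filter.Tendsto (fun r => ((n - 4).factorial : ℝ) /
    (2 * (n - 1).factorial * (sphMeas n).real Set.univ) * flux g r) Filter.atTop (nhds m)

def AF {n : ℕ} (g : Met n) (τ : ℝ) : Prop :=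
  ∃ C R : ℝ, ∀ x : V n, R ≤ √(x ⬝ᵥ x) → ∀ i j k l,
    |g x i j - (1 : Matrix (Fin n) (Fin n) ℝ) i j| ≤ C * √(x ⬝ᵥ x) ^ (-τ) ∧
    |lineDeriv ℝ (fun z => g z i j) x (bv k)| ≤ C * √(x ⬝ᵥ x) ^ (-τ - 1) ∧
    |lineDeriv ℝ (fun y => lineDeriv ℝ (fun z => g z i j) y (bv k)) x (bv l)|
      ≤ C * √(x ⬝ᵥ x) ^ (-τ - 2)

theorem result : ∃ (g : Met 6) (τ m : ℝ), IsMetric g ∧ Complete g ∧ (6 - 4) / 3 < τ ∧ AF g τ ∧
    Integrable (fun x => L2 g x * √(g x).det) ∧ (∀ x, 0 < L2 g x) ∧ (∀ x, 0 < Scal g x) ∧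
    HasMass g m ∧ m < 0 :=
  Pool.Agent.H.MP_c3d4b2_gt.main

end Pool.Agent.Results.MP_c3d4b2_gt.No
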